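import Pool.Agent.K3h49.Lat.Stm
import Pool.Agent.TH828.SQ1822

/-!
Brick MIX (job 76, requested by helper49, MP_cc0731_co).
-/

set_option autoImplicit false

namespace Pool.Agent.K3h64.Lat

open Finset
open scoped Pointwise Classical
open Pool.Agent.TH83.SQ (cls dil pr tau)
open Pool.Agent.K3h49.Lat
open Pool.Agent.TH828.SQ1822 (log_mean)

theorem self_mem_cls {Q : ℤ} {T : Finset ℤ} {t : ℤ} (ht : t ∈ T) : t ∈ cls Q T t := by
  rw [cls, Finset.mem_filter]
  exact ⟨ht, by simp⟩

theorem cls_card_pos {Q : ℤ} {T : Finset ℤ} {t : ℤ} (ht : t ∈ T) : 0 < (cls Q T t).card :=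
  Finset.card_pos.2 ⟨t, self_mem_cls ht⟩

theorem cls_congr {Q : ℤ} {T : Finset ℤ} {t t' : ℤ} (h : Q ∣ t - t') : cls Q T t = cls Q T t' := by
  unfold cls
  refine Finset.filter_congr fun x _ => ?_
  constructor
  · intro h1
    have := dvd_add h1 h
    rwa [sub_add_sub_cancel] at this
  · intro h1
    have := dvd_sub h1 h
    rwa [sub_sub_sub_cancel_right] at this

theorem ent_nonneg {Q : ℤ} {T : Finset ℤ} (hT : T.Nonempty) : 0 ≤ ent Q T := by
  have hTc : (0 : ℝ) < T.card := by exact_mod_cast hT.card_pos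
  unfold ent
  rw [sub_nonneg, div_le_iff₀ hTc, mul_comm, ← nsmul_eq_mul, ← Finset.sum_const]
  refine Finset.sum_le_sum fun t ht => ?_
  refine Real.log_le_log (by exact_mod_cast cls_card_pos ht) ?_
  exact_mod_cast Finset.card_le_card (Finset.filter_subset _ _)

theorem t_mix : MixStm := by
  intro P X B Q₁ Q₂ hQ T U hT hTn hU hUn β hβ0 hβ
  have hTc : (0 : ℝ) < T.card := by exact_mod_cast hTn.card_pos
  have hUc : (0 : ℝ) < U.card := by exact_mod_cast hUn.card_pos
  set W : Finset (ℤ × ℤ) := T ×ˢ U with hW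
  have hWn : W.Nonempty := hTn.product hUn
  have hWc : (W.card : ℝ) = T.card * U.card := by rw [hW, Finset.card_product]; push_cast; ring
  have hWc0 : (0 : ℝ) < W.card := by rw [hWc]; positivity
  have hWm : ∀ w ∈ W, w.1 ∈ T ∧ w.2 ∈ U := fun w hw => by
    rwa [hW, Finset.mem_product] at hw
  -- the pieces
  set D : ℤ → ℤ × ℤ → Finset ℤ := fun d w => dil d (cls Q₂ X w.1) + cls Q₂ B w.2 with hD
  have hDne : ∀ d, ∀ w ∈ W, (D d w).Nonempty := by
    intro d w hw
    refine Finset.Nonempty.add ?_ ?_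
    · exact Finset.Nonempty.image ⟨w.1, self_mem_cls (hT (hWm w hw).1)⟩ _
    · exact ⟨w.2, self_mem_cls (hU (hWm w hw).2)⟩
  have hDsub : ∀ d, ∀ w ∈ W, D d w ⊆ dil d X + B := by
    intro d w _
    refine Finset.add_subset_add ?_ (Finset.filter_subset _ _)
    exact Finset.image_subset_image (Finset.filter_subset _ _)
  -- good sets
  set good : Finset ℕ → Prop := fun s => ∀ w ∈ W, ∀ w' ∈ W,
    Q₂ ∣ pr s * (w.1 - w'.1) + (w.2 - w'.2) → Q₁ ∣ w.1 - w'.1 with hgood
  have hbad_case : ∀ s, (∑ w ∈ W, Real.log ((D (pr s) w).card : ℝ)) / W.card ≤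
      Real.log ((dil (pr s) X + B).card : ℝ) := by
    intro s
    rw [div_le_iff₀ hWc0, mul_comm, ← nsmul_eq_mul, ← Finset.sum_const]
    refine Finset.sum_le_sum fun w hw => ?_
    refine Real.log_le_log (by exact_mod_cast (hDne _ w hw).card_pos) ?_
    exact_mod_cast Finset.card_le_card (hDsub _ w hw)
  set E : ℝ := ent Q₁ T + ent Q₁ U with hE
  have hE0 : 0 ≤ E := add_nonneg (ent_nonneg hTn) (ent_nonneg hUn)
  have hEexp : E = Real.log W.card - (∑ w ∈ W, (Real.log ((cls Q₁ T w.1).card : ℝ) +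
      Real.log ((cls Q₁ U w.2).card : ℝ))) / W.card := by
    rw [Finset.sum_add_distrib]
    have e1 : ∑ w ∈ W, Real.log ((cls Q₁ T w.1).card : ℝ) =
        U.card * ∑ t ∈ T, Real.log ((cls Q₁ T t).card : ℝ) := by
      rw [hW, Finset.sum_product, Finset.mul_sum]
      refine Finset.sum_congr rfl fun t _ => ?_
      change ∑ _y ∈ U, Real.log ((cls Q₁ T t).card : ℝ) = _
      rw [Finset.sum_const, nsmul_eq_mul]
    have e2 : ∑ w ∈ W, Real.log ((cls Q₁ U w.2).card : ℝ) =
        T.card * ∑ t ∈ U, Real.log ((cls Q₁ U t).card : ℝ) := by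
      rw [hW, Finset.sum_product]
      change ∑ _x ∈ T, ∑ y ∈ U, Real.log ((cls Q₁ U y).card : ℝ) = _
      rw [Finset.sum_const, nsmul_eq_mul]
    rw [e1, e2, hE, hWc, Real.log_mul hTc.ne' hUc.ne']
    unfold ent
    field_simp
    ring
  have hgood_case : ∀ s, good s → E +
      (∑ w ∈ W, Real.log ((D (pr s) w).card : ℝ)) / W.card ≤
      Real.log ((dil (pr s) X + B).card : ℝ) := by
    intro s hs
    set c : ℤ × ℤ → ℝ := fun w => ((cls Q₁ T w.1).card : ℝ) * ((cls Q₁ U w.2).card : ℝ) with hc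
    have hc0 : ∀ w ∈ W, 0 < c w := by
      intro w hw
      have h1 : (0 : ℝ) < (cls Q₁ T w.1).card := by exact_mod_cast cls_card_pos (hWm w hw).1
      have h2 : (0 : ℝ) < (cls Q₁ U w.2).card := by exact_mod_cast cls_card_pos (hWm w hw).2
      exact mul_pos h1 h2
    have hDc : ∀ w ∈ W, (0 : ℝ) < (D (pr s) w).card := fun w hw => by
      exact_mod_cast (hDne _ w hw).card_pos
    have hlm := log_mean W hWn (fun w => ((D (pr s) w).card : ℝ) / c w)
      (fun w hw => div_pos (hDc w hw) (hc0 w hw))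
    have hlog : ∑ w ∈ W, Real.log (((D (pr s) w).card : ℝ) / c w) =
        ∑ w ∈ W, Real.log ((D (pr s) w).card : ℝ) - ∑ w ∈ W,
          (Real.log ((cls Q₁ T w.1).card : ℝ) + Real.log ((cls Q₁ U w.2).card : ℝ)) := by
      rw [← Finset.sum_sub_distrib]
      refine Finset.sum_congr rfl fun w hw => ?_
      have h1 : (0 : ℝ) < (cls Q₁ T w.1).card := by exact_mod_cast cls_card_pos (hWm w hw).1
      have h2 : (0 : ℝ) < (cls Q₁ U w.2).card := by exact_mod_cast cls_card_pos (hWm w hw).2
      rw [Real.log_div (hDc w hw).ne' (hc0 w hw).ne', hc, Real.log_mul h1.ne' h2.ne']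
    rw [hlog, sub_div] at hlm
    rw [hEexp]
    have key : ∑ w ∈ W, ((D (pr s) w).card : ℝ) / c w ≤ ((dil (pr s) X + B).card : ℝ) := by
      have h1 : ∀ w ∈ W, ((D (pr s) w).card : ℝ) / c w =
          ∑ z ∈ dil (pr s) X + B, if z ∈ D (pr s) w then 1 / c w else 0 := by
        intro w hw
        rw [← Finset.sum_filter, Finset.sum_const, nsmul_eq_mul, mul_one_div]
        congr 3
        ext z
        rw [Finset.mem_filter]
        exact ⟨fun h => ⟨hDsub _ w hw h, h⟩, fun h => h.2⟩
      rw [Finset.sum_congr rfl h1, Finset.sum_comm]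
      have h2 : ((dil (pr s) X + B).card : ℝ) = ∑ z ∈ dil (pr s) X + B, (1 : ℝ) := by
        rw [Finset.sum_const, nsmul_eq_mul, mul_one]
      rw [h2]
      refine Finset.sum_le_sum fun z _ => ?_
      rw [← Finset.sum_filter]
      rcases (W.filter fun w => z ∈ D (pr s) w).eq_empty_or_nonempty with h0 | ⟨w0, hw0⟩
      · rw [h0, Finset.sum_empty]; exact zero_le_one
      · rw [Finset.mem_filter] at hw0
        have h3 : ∀ w ∈ W.filter fun w => z ∈ D (pr s) w,
            Q₁ ∣ w.1 - w0.1 ∧ Q₁ ∣ w.2 - w0.2 := by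
          intro w hw
          rw [Finset.mem_filter] at hw
          have h4 : Q₂ ∣ pr s * (w.1 - w0.1) + (w.2 - w0.2) := by
            obtain ⟨y, hy, b, hb, rfl⟩ := Finset.mem_add.1 hw.2
            obtain ⟨y', hy', b', hb', he⟩ := Finset.mem_add.1 hw0.2
            obtain ⟨a, ha, rfl⟩ := Finset.mem_image.1 hy
            obtain ⟨a', ha', rfl⟩ := Finset.mem_image.1 hy'
            obtain ⟨k1, hk1⟩ := (Finset.mem_filter.1 ha).2
            obtain ⟨k2, hk2⟩ := (Finset.mem_filter.1 ha').2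
            obtain ⟨k3, hk3⟩ := (Finset.mem_filter.1 hb).2
            obtain ⟨k4, hk4⟩ := (Finset.mem_filter.1 hb').2
            refine ⟨pr s * (k2 - k1) + (k4 - k3), ?_⟩
            have e1 : w.1 = a - Q₂ * k1 := by linarith
            have e2 : w0.1 = a' - Q₂ * k2 := by linarith
            have e3 : w.2 = b - Q₂ * k3 := by linarith
            have e4 : w0.2 = b' - Q₂ * k4 := by linarith
            rw [e1, e2, e3, e4]
            have e5 : b' = pr s * a + b - pr s * a' := by linarith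
            rw [e5]
            ring
          have h5 : Q₁ ∣ w.1 - w0.1 := hs w hw.1 w0 hw0.1 h4
          refine ⟨h5, ?_⟩
          have h6 : Q₁ ∣ pr s * (w.1 - w0.1) + (w.2 - w0.2) := hQ.trans h4
          exact (dvd_add_right (Dvd.dvd.mul_left h5 _)).1 h6
        have h7 : ∀ w ∈ W.filter fun w => z ∈ D (pr s) w, 1 / c w = 1 / c w0 := by
          intro w hw
          simp only [hc]
          rw [cls_congr (h3 w hw).1, cls_congr (h3 w hw).2]
        rw [Finset.sum_congr rfl h7, Finset.sum_const, nsmul_eq_mul, mul_one_div,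
          div_le_one (hc0 w0 hw0.1)]
        have h8 : (W.filter fun w => z ∈ D (pr s) w) ⊆ cls Q₁ T w0.1 ×ˢ cls Q₁ U w0.2 := by
          intro w hw
          have h9 := h3 w hw
          rw [Finset.mem_filter] at hw
          rw [Finset.mem_product]
          unfold cls
          rw [Finset.mem_filter, Finset.mem_filter]
          exact ⟨⟨(hWm w hw.1).1, h9.1⟩, ⟨(hWm w hw.1).2, h9.2⟩⟩
        have h10 := Finset.card_le_card h8
        rw [Finset.card_product] at h10
        simp only [hc]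
        exact_mod_cast h10
    have hpos : 0 < ∑ w ∈ W, ((D (pr s) w).card : ℝ) / c w :=
      Finset.sum_pos (fun w hw => div_pos (hDc w hw) (hc0 w hw)) hWn
    have := Real.log_le_log hpos key
    linarith
  -- the number of bad sets
  set bad : Finset (Finset ℕ) := P.powerset.filter fun s => ¬ good s with hbad
  have hN : (0 : ℝ) < 2 ^ P.card := by positivity
  have hbadc : (bad.card : ℝ) ≤ ((T.card : ℝ) * U.card) ^ 2 * β * 2 ^ P.card := by
    set F : (ℤ × ℤ) × (ℤ × ℤ) → Finset (Finset ℕ) := fun a =>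
      if Q₁ ∣ a.1.1 - a.2.1 then ∅ else
        P.powerset.filter fun s => Q₂ ∣ pr s * (a.1.1 - a.2.1) + (a.1.2 - a.2.2) with hF
    have h1 : bad ⊆ (W ×ˢ W).biUnion F := by
      intro s hs
      rw [hbad, Finset.mem_filter] at hs
      obtain ⟨hsP, hs⟩ := hs
      simp only [hgood] at hs
      push Not at hs
      obtain ⟨w, hw, w', hw', hd, hne⟩ := hs
      rw [Finset.mem_biUnion]
      refine ⟨(w, w'), Finset.mk_mem_product hw hw', ?_⟩
      simp only [hF]
      rw [if_neg hne, Finset.mem_filter]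
      exact ⟨hsP, hd⟩
    have h2 : (bad.card : ℝ) ≤ ∑ a ∈ W ×ˢ W, ((F a).card : ℝ) := by
      exact_mod_cast (Finset.card_le_card h1).trans Finset.card_biUnion_le
    refine h2.trans ?_
    calc ∑ a ∈ W ×ˢ W, ((F a).card : ℝ) ≤ ∑ a ∈ W ×ˢ W, β * 2 ^ P.card := by
          refine Finset.sum_le_sum fun a ha => ?_
          rw [Finset.mem_product] at ha
          simp only [hF]
          split_ifs with h
          · rw [Finset.card_empty, Nat.cast_zero]; positivity
          · exact hβ _ (hWm _ ha.1).1 _ (hWm _ ha.2).1 h _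
      _ = _ := by
          rw [Finset.sum_const, Finset.card_product, nsmul_eq_mul]
          push_cast
          rw [hWc]
          ring
  -- averaging
  have hsum : (1 - ((T.card : ℝ) * U.card) ^ 2 * β) * 2 ^ P.card * E +
      ∑ s ∈ P.powerset, (∑ w ∈ W, Real.log ((D (pr s) w).card : ℝ)) / W.card ≤
      ∑ s ∈ P.powerset, Real.log ((dil (pr s) X + B).card : ℝ) := by
    have h1 : ∑ s ∈ P.powerset, ((∑ w ∈ W, Real.log ((D (pr s) w).card : ℝ)) / W.card +
        if good s then E else 0) ≤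
        ∑ s ∈ P.powerset, Real.log ((dil (pr s) X + B).card : ℝ) := by
      refine Finset.sum_le_sum fun s _ => ?_
      split_ifs with h
      · have := hgood_case s h; linarith
      · rw [add_zero]; exact hbad_case s
    rw [Finset.sum_add_distrib, ← Finset.sum_filter, Finset.sum_const, nsmul_eq_mul] at h1
    have h2 : ((P.powerset.filter good).card : ℝ) + bad.card = 2 ^ P.card := by
      have := Finset.card_filter_add_card_filter_not (s := P.powerset) good
      rw [Finset.card_powerset] at this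
      exact_mod_cast this
    have h3 : (1 - ((T.card : ℝ) * U.card) ^ 2 * β) * 2 ^ P.card ≤
        ((P.powerset.filter good).card : ℝ) := by linarith
    have h4 := mul_le_mul_of_nonneg_right h3 hE0
    linarith
  rw [← hWc]
  have hexp : ∑ t ∈ T, ∑ v ∈ U, tau P (cls Q₂ X t) (cls Q₂ B v) =
      (∑ s ∈ P.powerset, ∑ w ∈ W, Real.log ((D (pr s) w).card : ℝ)) / 2 ^ P.card := by
    rw [hW, ← Finset.sum_product', Finset.sum_comm, Finset.sum_div]
    rfl
  rw [hexp]
  rw [← hWc] at hsum
  unfold tau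
  rw [le_div_iff₀ hN]
  rw [← Finset.sum_div] at hsum
  have e : ((1 - (W.card : ℝ) ^ 2 * β) * E + (∑ s ∈ P.powerset, ∑ w ∈ W,
      Real.log ((D (pr s) w).card : ℝ)) / 2 ^ P.card / W.card) * 2 ^ P.card =
      (1 - (W.card : ℝ) ^ 2 * β) * 2 ^ P.card * E +
      (∑ s ∈ P.powerset, ∑ w ∈ W, Real.log ((D (pr s) w).card : ℝ)) / W.card := by
    field_simp
  rw [e]
  exact hsum

end Pool.Agent.K3h64.Lat
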